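import Pool.Agent.R406.PalExample

/-! # Finite defect and vanishing `T` do not force unioccurrence for all long factors -/

namespace Pool.Agent.Results.MP_18fb49_co.AllFactorsFails

open Pool.Agent.R406.Pal

/-- There is an infinite word `u` over four letters whose language is closed under reversal and
contains infinitely many palindromes, with `T(n) = 0` for all large `n` and finite defect, which has
arbitrarily long factors `f` whose longest palindromic suffix occurs at least twice in `f`. -/
theorem result : ∃ u : ℕ → Fin 4,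
    ClosedRev u ∧
    {w | w ∈ lang u ∧ w.reverse = w}.Infinite ∧
    (∃ N : ℕ, ∀ n, N ≤ n → T u n = 0) ∧
    defect u < ⊤ ∧
    ∀ H : ℕ, ∃ f ∈ lang u, H ≤ f.length ∧
      ∃ p : List (Fin 4), p <:+ f ∧ p.reverse = p ∧
        (∀ q : List (Fin 4), q <:+ f → q.reverse = q → q.length ≤ p.length) ∧
        2 ≤ (occ p f).ncard := by
  refine ⟨Ex.u, Ex.closedRev, Ex.infinite_pal, ⟨Ex.l 2 + 1, fun n hn => Ex.T_u n (by omega)⟩,
    Ex.defect_u, fun H => ⟨Ex.f H, Ex.f_mem H, by rw [Ex.f_len]; omega, [0], ?_, rfl, ?_,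
      Ex.f_occ H⟩⟩
  · exact ⟨List.replicate (H + 1) 3 ++ [0, 2, 1], by simp [Ex.f]⟩
  · exact fun q hq hr => Ex.f_lps H q hq hr

end Pool.Agent.Results.MP_18fb49_co.AllFactorsFails
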