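import Pool.Agent.R406.PalTree

/-! # Eventually vanishing `T` forces finite palindromic defect -/

namespace Pool.Agent.Results.MP_18fb49_co.FiniteDefect

open Pool.Agent.R406.Pal

/-- Let `u` be an infinite word over a finite alphabet whose language is closed under reversal and
contains infinitely many palindromes, and let `T(n) = 0` for all `n ≥ N`. Then the defect of `u` is
finite, and every sufficiently long prefix of `u` contains its longest palindromic suffix exactly
once. -/
theorem result {α : Type*} [Finite α] (u : ℕ → α)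
    (hrev : ClosedRev u)
    (hinf : {w | w ∈ lang u ∧ w.reverse = w}.Infinite)
    (N : ℕ) (hT : ∀ n, N ≤ n → T u n = 0) :
    defect u < ⊤ ∧
    ∃ H : ℕ, ∀ n, H ≤ n → ∃ p : List α, p <:+ fac u 0 n ∧ p.reverse = p ∧
      (∀ q : List α, q <:+ fac u 0 n → q.reverse = q → q.length ≤ p.length) ∧
      occ p (fac u 0 n) = {(fac u 0 n).length - p.length} := by
  obtain ⟨N1, hN1⟩ := UO_of_T hrev hinf hT
  exact ⟨defect_lt_top hN1, N1, fun n hn => lps_of_UO (hN1 n hn)⟩

end Pool.Agent.Results.MP_18fb49_co.FiniteDefect
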